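import Pool.Agent.H500.ME.Stm
import Pool.Graph.R_pool_sql_team_seeded_47a924f7.T6.H23.HK.Edge
import Pool.Graph.R_seed8.Y772.DK.Main
import Pool.Graph.R_pool_sql_team_ae5b0c61.H55.PNT

/-!
# Project ME (helper500), part A3: the prime number theorem for Hecke characters
-/

set_option autoImplicit false
set_option linter.all false

namespace Pool.Agent.H199.ME.MVHn

open NumberField IsDedekindDomain Filter Topology Complex Ideal
open Pool.Agent.T6.H23.HK
open Pool.Agent.Y773 (LI VM cc)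
open Pool.Agent.Y772.DK (ee LA LI_eq_exp D_eq deriv_LI norm_cc_le cc_prime absNorm_pos' LA_diff)

variable {K : Type} [Field K] [NumberField K]

/-- the twist by a power of the norm -/
noncomputable def tq (τ : ℝ) (ψ : Ideal (𝓞 K) →*₀ ℂ) : Ideal (𝓞 K) →*₀ ℂ where
  toFun 𝔞 := ψ 𝔞 * ((absNorm 𝔞 : ℕ) : ℂ) ^ (-((τ : ℂ) * I))
  map_zero' := by rw [map_zero, zero_mul]
  map_one' := by rw [map_one, map_one, Nat.cast_one, Complex.one_cpow, one_mul]
  map_mul' 𝔞 𝔟 := by
    rw [map_mul, map_mul, Nat.cast_mul, Complex.natCast_mul_natCast_cpow]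
    ring

lemma tq_apply (τ : ℝ) (ψ : Ideal (𝓞 K) →*₀ ℂ) (𝔞 : Ideal (𝓞 K)) :
    tq τ ψ 𝔞 = ψ 𝔞 * ((absNorm 𝔞 : ℕ) : ℂ) ^ (-((τ : ℂ) * I)) := rfl

section hecke

variable {𝔪 : Ideal (𝓞 K)} {k : InfinitePlace K → ℤ} {ν : InfinitePlace K → ℝ}
  {ψ : Ideal (𝓞 K) →*₀ ℂ}

lemma log_norm {x : 𝓞 K} (hx : x ≠ 0) : Real.log ((absNorm (span {x}) : ℕ) : ℝ) =
    ∑ w : InfinitePlace K, (w.mult : ℝ) * Real.log (w (x : K)) := by
  have hx0 : (x : K) ≠ 0 := coe_ne hx
  have hN : ((absNorm (span {x}) : ℕ) : ℝ) = ∏ w : InfinitePlace K, w (x : K) ^ w.mult := by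
    rw [InfinitePlace.prod_eq_abs_norm, absNorm_span_singleton, ← Algebra.coe_norm_int,
      Nat.cast_natAbs]
    push_cast
    rfl
  rw [hN, Real.log_prod (fun w _ => pow_ne_zero _ (place_pos hx0 w).ne')]
  exact Finset.sum_congr rfl fun w _ => Real.log_pow _ _

lemma tq_hecke (h : IsHecke 𝔪 k ν ψ) (τ : ℝ) :
    IsHecke 𝔪 k (fun w => ν w - τ * w.mult) (tq τ ψ) where
  ne_bot := h.ne_bot
  supp 𝔞 h𝔞 := by
    have h2 : ((absNorm 𝔞 : ℕ) : ℂ) ≠ 0 := by exact_mod_cast (absNorm_pos' h𝔞).ne'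
    have h3 : ((absNorm 𝔞 : ℕ) : ℂ) ^ (-((τ : ℂ) * I)) ≠ 0 := by
      rw [Complex.cpow_def_of_ne_zero h2]
      exact Complex.exp_ne_zero _
    rw [tq_apply, mul_ne_zero_iff, h.supp 𝔞 h𝔞]
    exact ⟨fun h => h.1, fun h => ⟨h, h3⟩⟩
  ray x hx hx1 := by
    rw [tq_apply, h.ray x hx hx1]
    have hx0 : (x : K) ≠ 0 := coe_ne hx
    have hs : span {x} ≠ (⊥ : Ideal (𝓞 K)) := by rwa [Ne, Ideal.span_singleton_eq_bot]
    have h0 : ((absNorm (span {x}) : ℕ) : ℂ) ≠ 0 := by exact_mod_cast (absNorm_pos' hs).ne'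
    have h2 : ((absNorm (span {x}) : ℕ) : ℂ) ^ (-((τ : ℂ) * I)) =
        ∏ w : InfinitePlace K, cexp (((-(τ * w.mult * Real.log (w (x : K))) : ℝ) : ℂ) * I) := by
      rw [← Complex.exp_sum, Complex.cpow_def_of_ne_zero h0, ← Complex.natCast_log, log_norm hx]
      congr 1
      push_cast
      rw [Finset.sum_mul]
      refine Finset.sum_congr rfl fun w _ => ?_
      ring
    rw [h2]
    unfold om
    rw [← Finset.prod_mul_distrib]
    refine Finset.prod_congr rfl fun w _ => ?_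
    rw [cpow_eq hx0, cpow_eq hx0, mul_assoc, ← Complex.exp_add]
    congr 2
    push_cast
    ring

lemma LI_tq (τ : ℝ) (ψ : Ideal (𝓞 K) →*₀ ℂ) (s : ℂ) : LI (tq τ ψ) s = LI ψ (s + τ * I) := by
  unfold LI
  refine tsum_congr fun 𝔞 => ?_
  rw [tq_apply]
  by_cases h : 𝔞 = 0
  · rw [h, map_zero, zero_mul, zero_mul, zero_mul]
  · have h2 : ((absNorm 𝔞 : ℕ) : ℂ) ≠ 0 := by exact_mod_cast (absNorm_pos' h).ne'
    rw [mul_assoc, ← Complex.cpow_add _ _ h2]
    congr 2
    ring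

/-- the coefficients of the logarithmic derivative -/
noncomputable def bb (ψ : Ideal (𝓞 K) →*₀ ℂ) (n : ℕ) : ℂ :=
  cc ψ n * (ArithmeticFunction.vonMangoldt n : ℂ)

lemma bb_le (hψ : ∀ 𝔞, ‖ψ 𝔞‖ ≤ 1) (n : ℕ) :
    ‖bb ψ n‖ ≤ Module.finrank ℚ K * ArithmeticFunction.vonMangoldt n := by
  unfold bb
  rw [norm_mul, Complex.norm_real, Real.norm_of_nonneg ArithmeticFunction.vonMangoldt_nonneg]
  exact mul_le_mul_of_nonneg_right (norm_cc_le ψ hψ n) ArithmeticFunction.vonMangoldt_nonneg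

lemma LS_bb (hψ : ∀ 𝔞, ‖ψ 𝔞‖ ≤ 1) {s : ℂ} (hs : 1 < s.re) :
    LSeries (bb ψ) s = -(deriv (LI ψ) s / LI ψ s) := by
  have h1 := D_eq ψ hψ hs
  have h3 : LI ψ s ≠ 0 := by
    rw [LI_eq_exp ψ hψ hs]
    exact Complex.exp_ne_zero _
  have h0 : bb ψ 0 = 0 := by
    unfold bb
    rw [ArithmeticFunction.map_zero, ofReal_zero, mul_zero]
  rw [deriv_LI ψ hψ hs, mul_div_assoc, div_self h3, mul_one, h1, neg_neg, LSeries_def₀ h0]
  refine tsum_congr fun n => ?_
  rw [Complex.cpow_neg, ← div_eq_mul_inv]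
  rfl

lemma summ_bb (hψ : ∀ 𝔞, ‖ψ 𝔞‖ ≤ 1) {s : ℂ} (hs : 1 < s.re) : LSeriesSummable (bb ψ) s := by
  have h1 := (ArithmeticFunction.LSeriesSummable_vonMangoldt hs).norm.mul_left
    (Module.finrank ℚ K : ℝ)
  refine Summable.of_norm_bounded h1 fun n => ?_
  rw [LSeries.norm_term_eq, LSeries.norm_term_eq]
  split_ifs with h
  · rw [mul_zero]
  · rw [← mul_div_assoc]
    refine div_le_div_of_nonneg_right ?_ (by positivity)
    have h2 := bb_le hψ n
    rwa [Complex.norm_real, Real.norm_of_nonneg ArithmeticFunction.vonMangoldt_nonneg]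

/-- the limits at the boundary -/
lemma lim_bd (h : IsHecke 𝔪 k ν ψ) (hm : 𝔪 ≠ ⊤) (τ : ℝ)
    (hn : ∃ 𝔮 : Ideal (𝓞 K), 𝔮 ≠ ⊥ ∧ IsCoprime 𝔮 𝔪 ∧ tq τ ψ 𝔮 ≠ 1) :
    ∃ y, Tendsto (LSeries (bb ψ)) (𝓝[{s : ℂ | 1 < s.re}] (1 + τ * I)) (𝓝 y) := by
  obtain ⟨F, hF, hFL⟩ := cont (tq_hecke h τ) hm hn
  have h1 := nonvan (tq_hecke h τ) hm hF hFL
  refine ⟨-(deriv F 1 / F 1), ?_⟩
  have hc : ContinuousAt (fun w => -(deriv F w / F w)) 1 :=
    (hF.deriv.continuousAt.div hF.continuousAt h1).neg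
  have ht : Tendsto (fun z : ℂ => z - τ * I) (𝓝[{s : ℂ | 1 < s.re}] (1 + τ * I)) (𝓝 1) := by
    have h2 : Continuous (fun z : ℂ => z - τ * I) := by fun_prop
    have h0 := h2.tendsto (1 + τ * I)
    simp only [add_sub_cancel_right] at h0
    exact h0.mono_left nhdsWithin_le_nhds
  refine (hc.tendsto.comp ht).congr' ?_
  have hFL' : ∀ᶠ w in 𝓝 (1 : ℂ), ∀ᶠ s in 𝓝 w, 1 < s.re → F s = LI (tq τ ψ) s :=
    hFL.eventually_nhds
  filter_upwards [ht.eventually hFL', self_mem_nhdsWithin] with z hz hz1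
  have hz1' : 1 < z.re := hz1
  have hre : 1 < (z - τ * I).re := by simpa using hz1'
  have he : F =ᶠ[𝓝 (z - τ * I)] fun s => LI ψ (s + τ * I) := by
    have hopen : ∀ᶠ s in 𝓝 (z - τ * I), 1 < s.re :=
      (isOpen_lt continuous_const continuous_re).mem_nhds hre
    filter_upwards [hz, hopen] with s hs hs1
    rw [hs hs1, LI_tq]
  have e2 : F (z - τ * I) = LI ψ z := by
    have e3 := he.self_of_nhds
    simp only [sub_add_cancel] at e3
    exact e3
  simp only [Function.comp]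
  rw [LS_bb h.norm_le hz1', he.deriv_eq, e2, deriv_comp_add_const, sub_add_cancel]

lemma cont_bb (hψ : ∀ 𝔞, ‖ψ 𝔞‖ ≤ 1) {s : ℂ} (hs : 1 < s.re) : ContinuousAt (LSeries (bb ψ)) s := by
  have h1 : LSeries.abscissaOfAbsConv (bb ψ) ≤ (1 : ℝ) :=
    LSeries.abscissaOfAbsConv_le_of_forall_lt_LSeriesSummable fun y hy =>
      summ_bb hψ (by simpa using hy)
  have h2 : LSeries.abscissaOfAbsConv (bb ψ) < s.re :=
    h1.trans_lt (by exact_mod_cast hs)
  exact (LSeries_hasDerivAt h2).continuousAt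

/-- the continuous extension -/
lemma ext_bd (h : IsHecke 𝔪 k ν ψ) (hm : 𝔪 ≠ ⊤)
    (hn : ∀ τ : ℝ, ∃ 𝔮 : Ideal (𝓞 K), 𝔮 ≠ ⊥ ∧ IsCoprime 𝔮 𝔪 ∧ tq τ ψ 𝔮 ≠ 1) :
    ∃ E : ℂ → ℂ, ContinuousOn E {s | 1 ≤ s.re} ∧ ∀ s : ℂ, 1 < s.re → E s = LSeries (bb ψ) s := by
  have hB : {s : ℂ | 1 ≤ s.re} ⊆ closure {s : ℂ | 1 < s.re} := by
    rw [Complex.closure_setOfPred_lt_re]
  refine ⟨extendFrom {s | 1 < s.re} (LSeries (bb ψ)), continuousOn_extendFrom hB ?_,
    fun s hs => extendFrom_eq (subset_closure hs) (cont_bb h.norm_le hs).continuousWithinAt⟩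
  intro x hx
  rcases eq_or_lt_of_le (show 1 ≤ x.re from hx) with h1 | h1
  · have h2 : x = 1 + (x.im : ℂ) * I := by
      conv_lhs => rw [← Complex.re_add_im x, ← h1]
      simp
    rw [h2]
    exact lim_bd h hm x.im (hn x.im)
  · exact ⟨_, (cont_bb h.norm_le h1).continuousWithinAt⟩

end hecke

section wi

/-- the conjugate series -/
lemma LS_conj (b : ℕ → ℂ) (s : ℂ) : LSeries (fun n => (starRingEnd ℂ) (b n)) s =
    (starRingEnd ℂ) (LSeries b ((starRingEnd ℂ) s)) := by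
  unfold LSeries
  rw [Complex.conj_tsum]
  refine tsum_congr fun n => ?_
  rw [LSeries.term_def, LSeries.term_def]
  split_ifs with h
  · rw [map_zero]
  · rw [map_div₀]
    congr 1
    have h1 : ((n : ℂ)).arg ≠ Real.pi := by
      rw [Complex.natCast_arg]
      exact Real.pi_pos.ne
    have h2 := Complex.cpow_conj (n : ℂ) s h1
    rw [h2, Complex.conj_conj]
    rw [Complex.conj_natCast]

lemma summ_conj {b : ℕ → ℂ} {s : ℂ} (h : LSeriesSummable b s) :
    LSeriesSummable (fun n => (starRingEnd ℂ) (b n)) s := by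
  refine Summable.of_norm_bounded h.norm fun n => ?_
  rw [LSeries.norm_term_eq, LSeries.norm_term_eq, RCLike.norm_conj]

open ArithmeticFunction in
/-- the theorem of Wiener and Ikehara for a bounded multiple of the von Mangoldt function -/
lemma wi {b : ℕ → ℂ} {d : ℝ} (hd : 0 ≤ d) (hb : ∀ n, ‖b n‖ ≤ d * ArithmeticFunction.vonMangoldt n)
    {E : ℂ → ℂ} (hE : ContinuousOn E {s | 1 ≤ s.re})
    (hEe : ∀ s : ℂ, 1 < s.re → E s = LSeries b s) (u : ℂ) (hu : ‖u‖ ≤ 1) :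
    Tendsto (fun x : ℝ => (∑ k ∈ Finset.Icc 1 ⌊x⌋₊, (u * b k).re) / x) atTop (𝓝 0) := by
  have hsb : ∀ s : ℂ, 1 < s.re → LSeriesSummable b s := by
    intro s hs
    have h1 := (ArithmeticFunction.LSeriesSummable_vonMangoldt hs).norm.mul_left d
    refine Summable.of_norm_bounded h1 fun n => ?_
    rw [LSeries.norm_term_eq, LSeries.norm_term_eq]
    split_ifs with h
    · rw [mul_zero]
    · rw [← mul_div_assoc]
      refine div_le_div_of_nonneg_right ?_ (by positivity)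
      have h2 := hb n
      rwa [Complex.norm_real, Real.norm_of_nonneg ArithmeticFunction.vonMangoldt_nonneg]
  have hres : ∀ k : ℕ, vonMangoldt.residueClass (1 : ZMod 1) k =
      ArithmeticFunction.vonMangoldt k := by
    intro k
    rw [vonMangoldt.residueClass, Set.indicator_of_mem]
    exact Subsingleton.elim _ _
  set a : ℕ → ℝ := fun n => d * ArithmeticFunction.vonMangoldt n + (u * b n).re with ha
  have habs : ∀ n, |(u * b n).re| ≤ d * ArithmeticFunction.vonMangoldt n := by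
    intro n
    refine (Complex.abs_re_le_norm _).trans ?_
    rw [norm_mul]
    exact (mul_le_of_le_one_left (norm_nonneg _) hu).trans (hb n)
  have ha0 : ∀ n, 0 ≤ a n := fun n => by
    have := (abs_le.1 (habs n)).1
    simp only [ha]
    linarith
  have haC : ∀ n : ℕ, ∑ k ∈ Finset.Icc 1 n, a k ≤ (2 * d * (Real.log 4 + 4)) * n := by
    intro n
    have h1 : ∑ k ∈ Finset.Icc 1 n, a k ≤ ∑ k ∈ Finset.Icc 1 n,
        2 * d * ArithmeticFunction.vonMangoldt k := by
      refine Finset.sum_le_sum fun k _ => ?_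
      have := (abs_le.1 (habs k)).2
      simp only [ha]
      linarith
    refine h1.trans ?_
    rw [← Finset.mul_sum, mul_assoc (2 * d)]
    refine mul_le_mul_of_nonneg_left ?_ (by positivity)
    have h2 := Chebyshev.psi_le_const_mul_self (x := (n : ℝ)) (Nat.cast_nonneg n)
    rw [Chebyshev.psi, Nat.floor_natCast] at h2
    exact h2
  set Z : ℂ → ℂ := vonMangoldt.LFunctionResidueClassAux (1 : ZMod 1) with hZ
  have hZc : ContinuousOn Z {s | 1 ≤ s.re} :=
    vonMangoldt.continuousOn_LFunctionResidueClassAux (1 : ZMod 1)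
  have hZe : ∀ s : ℂ, 1 < s.re → Z s =
      LSeries (fun n => (ArithmeticFunction.vonMangoldt n : ℂ)) s - 1 / (s - 1) := by
    intro s hs
    have h1 := vonMangoldt.eqOn_LFunctionResidueClassAux (q := 1) (a := 1) isUnit_one hs
    simp only [Nat.totient_one, Nat.cast_one, inv_one] at h1
    rw [hZ, h1]
    congr 1
    exact LSeries_congr (fun {n} _ => by rw [hres]) s
  have hcj : ContinuousOn (fun s => (starRingEnd ℂ) (E ((starRingEnd ℂ) s))) {s : ℂ | 1 ≤ s.re} := by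
    refine Complex.continuous_conj.comp_continuousOn ?_
    exact hE.comp Complex.continuous_conj.continuousOn fun s hs => by
      simpa using hs
  have key := Pool.Agent.H55.PNT.wiener_ikehara (a := a) ha0 (C := 2 * d * (Real.log 4 + 4))
    (c := d) haC (G := fun s => d * Z s + (u / 2) * E s + ((starRingEnd ℂ) u / 2) *
      (starRingEnd ℂ) (E ((starRingEnd ℂ) s))) ?_ ?_
  · have hpsi := (Pool.Agent.H55.PNT.psi_ap (q := 1) (a := 1) isUnit_one).const_mul d
    simp only [Nat.totient_one, Nat.cast_one, inv_one, mul_one] at hpsi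
    have h2 := key.sub hpsi
    rw [sub_self] at h2
    refine h2.congr fun x => ?_
    rw [← mul_div_assoc, ← sub_div, Finset.mul_sum, ← Finset.sum_sub_distrib]
    congr 1
    refine Finset.sum_congr rfl fun k _ => ?_
    rw [hres]
    simp only [ha]
    ring
  · exact ((continuousOn_const.mul hZc).add (continuousOn_const.mul hE)).add
      (continuousOn_const.mul hcj)
  · intro s hs
    have hs' : 1 < ((starRingEnd ℂ) s).re := by simpa using hs
    rw [hZe s hs, hEe s hs, hEe _ hs', ← LS_conj]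
    have e1 : (fun n => (a n : ℂ)) =
        ((d : ℂ) • fun n => (ArithmeticFunction.vonMangoldt n : ℂ)) +
        ((u / 2) • b + ((starRingEnd ℂ) u / 2) • fun n => (starRingEnd ℂ) (b n)) := by
      funext n
      simp only [ha, Pi.add_apply, Pi.smul_apply, smul_eq_mul]
      rw [Complex.ofReal_add, Complex.ofReal_mul, Complex.re_eq_add_conj, map_mul]
      ring
    have hs1 : LSeriesSummable (fun n => (ArithmeticFunction.vonMangoldt n : ℂ)) s :=
      ArithmeticFunction.LSeriesSummable_vonMangoldt hs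
    have hs2 := hsb s hs
    have hs3 := summ_conj hs2
    rw [e1, LSeries_add (hs1.smul (d : ℂ)) ((hs2.smul (u / 2)).add
      (hs3.smul ((starRingEnd ℂ) u / 2))), LSeries_add (hs2.smul (u / 2))
      (hs3.smul ((starRingEnd ℂ) u / 2))]
    rw [LSeries_smul, LSeries_smul, LSeries_smul]
    ring

lemma T_lim {b : ℕ → ℂ} {d : ℝ} (hd : 0 ≤ d)
    (hb : ∀ n, ‖b n‖ ≤ d * ArithmeticFunction.vonMangoldt n)
    {E : ℂ → ℂ} (hE : ContinuousOn E {s | 1 ≤ s.re})
    (hEe : ∀ s : ℂ, 1 < s.re → E s = LSeries b s) :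
    Tendsto (fun N : ℕ => ‖∑ k ∈ Finset.Icc 1 N, b k‖ / (N : ℝ)) atTop (𝓝 0) := by
  have h1 := ((wi hd hb hE hEe 1 (by simp)).comp tendsto_natCast_atTop_atTop).abs
  have h2 := ((wi hd hb hE hEe (-I) (by simp)).comp tendsto_natCast_atTop_atTop).abs
  have h3 := h1.add h2
  rw [abs_zero, add_zero] at h3
  refine squeeze_zero (fun N => by positivity) (fun N => ?_) h3
  simp only [Function.comp, Nat.floor_natCast]
  rw [abs_div, abs_div, Nat.abs_cast, ← add_div]
  refine div_le_div_of_nonneg_right ?_ (Nat.cast_nonneg _)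
  have e1 : ∑ k ∈ Finset.Icc 1 N, (1 * b k).re = (∑ k ∈ Finset.Icc 1 N, b k).re := by
    rw [Complex.re_sum]
    exact Finset.sum_congr rfl fun k _ => by rw [one_mul]
  have e2 : ∑ k ∈ Finset.Icc 1 N, (-I * b k).re = (∑ k ∈ Finset.Icc 1 N, b k).im := by
    rw [Complex.im_sum]
    exact Finset.sum_congr rfl fun k _ => by simp
  rw [e1, e2]
  exact Complex.norm_le_abs_re_add_abs_im _

end wi

section count

/-- the primes up to `N` -/
def P (N : ℕ) : Finset ℕ := (Finset.range (N + 1)).filter Nat.Prime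

lemma mem_P {N p : ℕ} : p ∈ P N ↔ p ≤ N ∧ p.Prime := by
  rw [P, Finset.mem_filter, Finset.mem_range, Nat.lt_succ_iff]

lemma card_P (N : ℕ) : (P N).card = Nat.primeCounting N := by
  rw [P, Nat.primeCounting, Nat.primeCounting', Nat.count_eq_card_filter_range]

lemma theta_P (N : ℕ) : Chebyshev.theta N = ∑ p ∈ P N, Real.log p := by
  rw [Chebyshev.theta, Nat.floor_natCast]
  refine Finset.sum_congr ?_ fun _ _ => rfl
  ext p
  rw [mem_P, Finset.mem_filter, Finset.mem_Ioc]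
  exact ⟨fun h => ⟨h.1.2, h.2⟩, fun h => ⟨⟨h.2.pos, h.1⟩, h.2⟩⟩

/-- `π(N) log N - θ(N) = o(N)` -/
lemma pi_theta : Tendsto (fun N : ℕ => ((Nat.primeCounting N : ℝ) * Real.log N -
    Chebyshev.theta N) / (N : ℝ)) atTop (𝓝 0) := by
  have h1 := Chebyshev.primeCounting_sub_theta_div_log_isBigO.comp_tendsto
    tendsto_natCast_atTop_atTop
  obtain ⟨C, hC⟩ := h1.bound
  have h2 : Tendsto (fun N : ℕ => C * (Real.log N)⁻¹) atTop (𝓝 0) := by
    have := (tendsto_inv_atTop_zero.comp (Real.tendsto_log_atTop.comp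
      tendsto_natCast_atTop_atTop)).const_mul C
    rw [mul_zero] at this
    exact this
  refine squeeze_zero_norm' ?_ h2
  filter_upwards [hC, eventually_ge_atTop 2] with N hN h2N
  simp only [Function.comp, Nat.floor_natCast] at hN
  have hN' : (2 : ℝ) ≤ N := by exact_mod_cast h2N
  have hN0 : (0 : ℝ) < N := by linarith
  have hl : 0 < Real.log N := Real.log_pos (by linarith)
  have e1 : ((Nat.primeCounting N : ℝ) * Real.log N - Chebyshev.theta N) / (N : ℝ) =
      ((Nat.primeCounting N : ℝ) - Chebyshev.theta N / Real.log N) * (Real.log N / N) := by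
    field_simp
  have e2 : C * (Real.log N)⁻¹ = C * ‖(N : ℝ) / Real.log N ^ 2‖ * (Real.log N / N) := by
    rw [Real.norm_of_nonneg (by positivity)]
    field_simp
  rw [e1, e2, norm_mul, Real.norm_of_nonneg (show 0 ≤ Real.log N / N by positivity)]
  exact mul_le_mul_of_nonneg_right hN (by positivity)

/-- the lower bound of Chebyshev -/
lemma pi_low : ∀ᶠ N : ℕ in atTop, (N : ℝ) * (Real.log 2 / 2) ≤
    (Nat.primeCounting N : ℝ) * Real.log N := by
  have hl2 : 0 < Real.log 2 := Real.log_pos (by norm_num)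
  have hlog1 : Tendsto (fun N : ℕ => Real.log (N + 1) / (N : ℝ)) atTop (𝓝 0) := by
    have h := (Real.isLittleO_log_id_atTop).tendsto_div_nhds_zero
    have h2 : Tendsto (fun N : ℕ => Real.log ((N + 1 : ℕ) : ℝ) / (((N + 1 : ℕ) : ℝ))) atTop (𝓝 0) :=
      h.comp (tendsto_natCast_atTop_atTop.comp (tendsto_add_atTop_nat 1))
    have h3 : Tendsto (fun N : ℕ => 2 * (Real.log ((N + 1 : ℕ) : ℝ) / (((N + 1 : ℕ) : ℝ)))) atTop
        (𝓝 0) := by simpa using h2.const_mul 2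
    refine squeeze_zero' ?_ ?_ h3
    · filter_upwards with N
      exact div_nonneg (Real.log_nonneg (by linarith [(Nat.cast_nonneg N : (0:ℝ) ≤ N)]))
        (Nat.cast_nonneg N)
    · filter_upwards [eventually_ge_atTop 1] with N hN
      have hN' : (1 : ℝ) ≤ N := by exact_mod_cast hN
      push_cast
      rw [mul_div_assoc', div_le_div_iff₀ (by linarith) (by linarith)]
      have : 0 ≤ Real.log ((N : ℝ) + 1) := Real.log_nonneg (by linarith)
      nlinarith
  have h1 := (hlog1.eventually (gt_mem_nhds (show (0 : ℝ) < Real.log 2 / 2 by positivity)))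
  filter_upwards [eventually_ge_atTop 2, h1] with N hN h1
  have hN' : (2 : ℝ) ≤ N := by exact_mod_cast hN
  have hNpos : (0 : ℝ) < N := by linarith
  rw [div_lt_iff₀ hNpos] at h1
  have hpsi := Chebyshev.psi_ge N
  have hpi := Chebyshev.psi_le_primeCounting_mul_log N
  linarith

/-- the prime values have mean value zero -/
lemma S1_lim {c : ℕ → ℂ} {d : ℝ} (hd : 0 ≤ d) (hc : ∀ n, ‖c n‖ ≤ d)
    (hT : Tendsto (fun N : ℕ => ‖∑ k ∈ Finset.Icc 1 N,
      c k * (ArithmeticFunction.vonMangoldt k : ℂ)‖ / (N : ℝ)) atTop (𝓝 0)) :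
    Tendsto (fun N : ℕ => ‖∑ p ∈ P N, c p‖ / (Nat.primeCounting N : ℝ)) atTop (𝓝 0) := by
  obtain ⟨C, hC⟩ := Chebyshev.psi_sub_theta_le_mul_sqrt
  have hl2 : 0 < Real.log 2 := Real.log_pos (by norm_num)
  have hsq : Tendsto (fun N : ℕ => d * C * (Real.sqrt N / N)) atTop (𝓝 0) := by
    have h0 : Tendsto (fun N : ℕ => d * C * (Real.sqrt N)⁻¹) atTop (𝓝 (d * C * 0)) :=
      (tendsto_inv_atTop_zero.comp (Real.tendsto_sqrt_atTop.comp
        tendsto_natCast_atTop_atTop)).const_mul (d * C)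
    rw [mul_zero] at h0
    refine h0.congr fun N => ?_
    rw [Real.sqrt_div_self', one_div]
  have hall := ((hT.add hsq).add (pi_theta.const_mul d)).const_mul (2 / Real.log 2)
  rw [mul_zero, add_zero, add_zero, mul_zero] at hall
  refine squeeze_zero' (Eventually.of_forall fun N => by positivity) ?_ hall
  filter_upwards [pi_low, eventually_ge_atTop 2] with N hlow h2N
  have hN' : (2 : ℝ) ≤ N := by exact_mod_cast h2N
  have hN0 : (0 : ℝ) < N := by linarith
  have hl : 0 < Real.log N := Real.log_pos (by linarith)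
  have hpi0 : (0 : ℝ) < Nat.primeCounting N := by
    by_contra hcon
    have h3 : (Nat.primeCounting N : ℝ) * Real.log N ≤ 0 :=
      mul_nonpos_of_nonpos_of_nonneg (not_lt.mp hcon) hl.le
    have h4 : 0 < (N : ℝ) * (Real.log 2 / 2) := by positivity
    linarith
  -- the prime powers
  have hA : ‖∑ k ∈ Finset.Icc 1 N, c k * (ArithmeticFunction.vonMangoldt k : ℂ) -
      ∑ p ∈ P N, c p * (Real.log p : ℂ)‖ ≤ d * C * Real.sqrt N := by
    have e1 : ∑ p ∈ P N, c p * (Real.log p : ℂ) = ∑ k ∈ (Finset.Icc 1 N).filter Nat.Prime,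
        c k * (ArithmeticFunction.vonMangoldt k : ℂ) := by
      have e2 : P N = (Finset.Icc 1 N).filter Nat.Prime := by
        ext p
        rw [mem_P, Finset.mem_filter, Finset.mem_Icc]
        exact ⟨fun h => ⟨⟨h.2.one_le, h.1⟩, h.2⟩, fun h => ⟨h.1.2, h.2⟩⟩
      rw [e2]
      refine Finset.sum_congr rfl fun p hp => ?_
      rw [ArithmeticFunction.vonMangoldt_apply_prime (Finset.mem_filter.1 hp).2]
    rw [e1, ← Finset.sum_filter_add_sum_filter_not (Finset.Icc 1 N) Nat.Prime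
      (fun k => c k * (ArithmeticFunction.vonMangoldt k : ℂ)), add_sub_cancel_left]
    have e3 := Chebyshev.psi_sub_theta_eq_sum_not_prime (N : ℝ)
    rw [Nat.floor_natCast] at e3
    have e4 : (Finset.Ioc 0 N) = Finset.Icc 1 N := by
      ext k
      rw [Finset.mem_Ioc, Finset.mem_Icc]
      omega
    rw [e4] at e3
    have e5 := hC N
    rw [e3] at e5
    refine (norm_sum_le _ _).trans ?_
    calc ∑ k ∈ (Finset.Icc 1 N).filter (fun k => ¬ k.Prime),
          ‖c k * (ArithmeticFunction.vonMangoldt k : ℂ)‖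
        ≤ ∑ k ∈ (Finset.Icc 1 N).filter (fun k => ¬ k.Prime),
          d * ArithmeticFunction.vonMangoldt k := by
          refine Finset.sum_le_sum fun k _ => ?_
          rw [norm_mul, Complex.norm_real,
            Real.norm_of_nonneg ArithmeticFunction.vonMangoldt_nonneg]
          exact mul_le_mul_of_nonneg_right (hc k) ArithmeticFunction.vonMangoldt_nonneg
      _ = d * ∑ k ∈ (Finset.Icc 1 N).filter (fun k => ¬ k.Prime),
          ArithmeticFunction.vonMangoldt k := by rw [Finset.mul_sum]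
      _ ≤ d * (C * Real.sqrt N) := mul_le_mul_of_nonneg_left e5 hd
      _ = _ := by ring
  -- summation by parts
  have hB : ‖(Real.log N : ℂ) * ∑ p ∈ P N, c p - ∑ p ∈ P N, c p * (Real.log p : ℂ)‖ ≤
      d * ((Nat.primeCounting N : ℝ) * Real.log N - Chebyshev.theta N) := by
    have e1 : (Real.log N : ℂ) * ∑ p ∈ P N, c p - ∑ p ∈ P N, c p * (Real.log p : ℂ) =
        ∑ p ∈ P N, c p * ((Real.log N - Real.log p : ℝ) : ℂ) := by
      rw [Finset.mul_sum, ← Finset.sum_sub_distrib]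
      refine Finset.sum_congr rfl fun p _ => ?_
      push_cast
      ring
    have e2 : (Nat.primeCounting N : ℝ) * Real.log N - Chebyshev.theta N =
        ∑ p ∈ P N, (Real.log N - Real.log p) := by
      rw [Finset.sum_sub_distrib, Finset.sum_const, card_P, nsmul_eq_mul, theta_P]
    rw [e1, e2, Finset.mul_sum]
    refine (norm_sum_le _ _).trans (Finset.sum_le_sum fun p hp => ?_)
    have h1 := mem_P.1 hp
    have h2 : Real.log p ≤ Real.log N :=
      Real.log_le_log (by exact_mod_cast h1.2.pos) (by exact_mod_cast h1.1)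
    rw [norm_mul, Complex.norm_real, Real.norm_of_nonneg (by linarith)]
    exact mul_le_mul_of_nonneg_right (hc p) (by linarith)
  set S := ∑ p ∈ P N, c p with hS
  set T1 := ∑ p ∈ P N, c p * (Real.log p : ℂ) with hT1
  set T := ∑ k ∈ Finset.Icc 1 N, c k * (ArithmeticFunction.vonMangoldt k : ℂ) with hTd
  have hS1 : ‖S‖ * Real.log N ≤ ‖T‖ + d * C * Real.sqrt N +
      d * ((Nat.primeCounting N : ℝ) * Real.log N - Chebyshev.theta N) := by
    have e1 : (Real.log N : ℂ) * S = T - (T - T1) + ((Real.log N : ℂ) * S - T1) := by ring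
    have e2 : ‖(Real.log N : ℂ) * S‖ = ‖S‖ * Real.log N := by
      rw [norm_mul, Complex.norm_real, Real.norm_of_nonneg hl.le, mul_comm]
    rw [← e2, e1]
    refine (norm_add_le _ _).trans (add_le_add ((norm_sub_le _ _).trans ?_) hB)
    exact add_le_add_right hA _
  rw [div_le_iff₀ hpi0]
  have e3 : 2 / Real.log 2 * (‖T‖ / N + d * C * (Real.sqrt N / N) +
      d * (((Nat.primeCounting N : ℝ) * Real.log N - Chebyshev.theta N) / N)) =
      (‖T‖ + d * C * Real.sqrt N + d * ((Nat.primeCounting N : ℝ) * Real.log N -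
      Chebyshev.theta N)) / (N * (Real.log 2 / 2)) := by
    field_simp
  rw [e3]
  have hX : 0 ≤ ‖T‖ + d * C * Real.sqrt N + d * ((Nat.primeCounting N : ℝ) * Real.log N -
      Chebyshev.theta N) := le_trans (by positivity) hS1
  have hc0 : 0 < (N : ℝ) * (Real.log 2 / 2) := by positivity
  rw [div_mul_eq_mul_div, le_div_iff₀ hc0]
  refine le_of_mul_le_mul_right ?_ hl
  calc ‖S‖ * (N * (Real.log 2 / 2)) * Real.log N
      = (‖S‖ * Real.log N) * (N * (Real.log 2 / 2)) := by ring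
    _ ≤ (‖T‖ + d * C * Real.sqrt N + d * ((Nat.primeCounting N : ℝ) * Real.log N -
      Chebyshev.theta N)) * ((Nat.primeCounting N : ℝ) * Real.log N) :=
        mul_le_mul hS1 hlow hc0.le hX
    _ = _ := by ring

end count

section places

variable (ψ : Ideal (𝓞 K) →*₀ ℂ)

open Pool.Agent.H500.ME (pl MVn)

lemma mem_pl {N : ℕ} {v : HeightOneSpectrum (𝓞 K)} : v ∈ pl K N ↔ absNorm v.asIdeal ≤ N := by
  rw [pl, Set.Finite.mem_toFinset]
  rfl

lemma cc_sum {p N : ℕ} (hp : p.Prime) (hpN : p ≤ N) : cc ψ p =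
    ∑ v ∈ (pl K N).filter (fun v => absNorm v.asIdeal = p), ψ v.asIdeal := by
  classical
  rw [cc_prime ψ hp]
  have hset : {𝔭 : Ideal (𝓞 K) | absNorm 𝔭 = p} =
      ((((pl K N).filter (fun v => absNorm v.asIdeal = p)).image HeightOneSpectrum.asIdeal :
        Finset (Ideal (𝓞 K))) : Set (Ideal (𝓞 K))) := by
    ext 𝔭
    rw [Finset.coe_image, Set.mem_image, Set.mem_ofPred_eq]
    constructor
    · intro h3
      have h4 : 𝔭.IsPrime := isPrime_of_irreducible_absNorm (by rw [h3]; exact hp)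
      have h5 : 𝔭 ≠ ⊥ := by
        rintro rfl
        rw [absNorm_bot] at h3
        exact hp.ne_zero h3.symm
      refine ⟨⟨𝔭, h4, h5⟩, ?_, rfl⟩
      rw [Finset.mem_coe, Finset.mem_filter, mem_pl]
      exact ⟨h3.le.trans hpN, h3⟩
    · rintro ⟨v, hv, rfl⟩
      rw [Finset.mem_coe, Finset.mem_filter] at hv
      exact hv.2
  rw [hset, finsum_mem_coe_finset, Finset.sum_image]
  intro v _ w _ hvw
  exact HeightOneSpectrum.ext hvw

lemma split_sum (hψ : ∀ 𝔞, ‖ψ 𝔞‖ ≤ 1) (N : ℕ) :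
    ‖∑ v ∈ pl K N, ψ v.asIdeal‖ ≤ ‖∑ p ∈ P N, cc ψ p‖ +
      Module.finrank ℚ K * (Nat.sqrt N + 1) := by
  classical
  have e1 : ∑ p ∈ P N, cc ψ p =
      ∑ v ∈ (pl K N).filter (fun v => (absNorm v.asIdeal).Prime), ψ v.asIdeal := by
    rw [← Finset.sum_fiberwise_of_maps_to (s := (pl K N).filter
      (fun v => (absNorm v.asIdeal).Prime)) (t := P N) (g := fun v => absNorm v.asIdeal)]
    · refine Finset.sum_congr rfl fun p hp => ?_
      rw [cc_sum ψ (mem_P.1 hp).2 (mem_P.1 hp).1]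
      refine Finset.sum_congr ?_ fun _ _ => rfl
      ext v
      rw [Finset.mem_filter, Finset.mem_filter, Finset.mem_filter]
      constructor
      · rintro ⟨h1, h2⟩
        exact ⟨⟨h1, h2 ▸ (mem_P.1 hp).2⟩, h2⟩
      · rintro ⟨⟨h1, _⟩, h2⟩
        exact ⟨h1, h2⟩
    · intro v hv
      rw [Finset.mem_filter] at hv
      exact mem_P.2 ⟨mem_pl.1 hv.1, hv.2⟩
  obtain ⟨R, hR, hRe⟩ := Pool.Agent.W352.ChAbs.decomp (K := K)
    (fun v => ¬ (absNorm v.asIdeal).Prime) N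
  have e2 : ((pl K N).filter (fun v => ¬ (absNorm v.asIdeal).Prime)).card = R := by
    have h0 : ∑ p ∈ Pool.Agent.W401.Cheb.pr N, Nat.card {v : HeightOneSpectrum (𝓞 K) //
        absNorm v.asIdeal = p ∧ ¬ (absNorm v.asIdeal).Prime} = 0 := by
      refine Finset.sum_eq_zero fun p hp => ?_
      have hp' := (Finset.mem_filter.1 hp).2
      have : IsEmpty {v : HeightOneSpectrum (𝓞 K) //
        absNorm v.asIdeal = p ∧ ¬ (absNorm v.asIdeal).Prime} :=
        ⟨fun v => v.2.2 (v.2.1.symm ▸ hp')⟩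
      exact Nat.card_of_isEmpty
    rw [h0, zero_add] at hRe
    rw [← hRe]
    have h1 : (((pl K N).filter (fun v => ¬ (absNorm v.asIdeal).Prime) :
        Finset (HeightOneSpectrum (𝓞 K))) : Set (HeightOneSpectrum (𝓞 K))) =
        {v | absNorm v.asIdeal ≤ N ∧ ¬ (absNorm v.asIdeal).Prime} := by
      ext v
      rw [Finset.mem_coe, Finset.mem_filter, mem_pl]
      rfl
    rw [← Set.ncard_coe_finset, h1]
    rfl
  rw [e1, ← Finset.sum_filter_add_sum_filter_not (pl K N) (fun v => (absNorm v.asIdeal).Prime)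
    (fun v => ψ v.asIdeal)]
  refine (norm_add_le _ _).trans (add_le_add_right ?_ _)
  refine (norm_sum_le _ _).trans ?_
  calc ∑ v ∈ (pl K N).filter (fun v => ¬ (absNorm v.asIdeal).Prime), ‖ψ v.asIdeal‖
      ≤ ∑ v ∈ (pl K N).filter (fun v => ¬ (absNorm v.asIdeal).Prime), (1 : ℝ) :=
        Finset.sum_le_sum fun v _ => hψ _
    _ = (R : ℝ) := by rw [Finset.sum_const, e2, nsmul_eq_mul, mul_one]
    _ ≤ _ := by exact_mod_cast hR

/-- the theorem for a modulus which is not trivial -/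
lemma core {𝔪 : Ideal (𝓞 K)} {k : InfinitePlace K → ℤ} {ν : InfinitePlace K → ℝ}
    (h : IsHecke 𝔪 k ν ψ) (hm : 𝔪 ≠ ⊤)
    (hn : ∀ τ : ℝ, ∃ 𝔮 : Ideal (𝓞 K), 𝔮 ≠ ⊥ ∧ IsCoprime 𝔮 𝔪 ∧ tq τ ψ 𝔮 ≠ 1) :
    Tendsto (fun N : ℕ => ‖∑ v ∈ pl K N, ψ v.asIdeal‖ / (Nat.primeCounting N : ℝ)) atTop
      (𝓝 0) := by
  obtain ⟨E, hE, hEe⟩ := ext_bd h hm hn
  have h1 := T_lim (Nat.cast_nonneg _) (bb_le h.norm_le) hE hEe
  have h2 := S1_lim (c := cc ψ) (Nat.cast_nonneg _) (norm_cc_le ψ h.norm_le) h1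
  have h3 := h2.add (Pool.Agent.W352.ChAbs.sqrt_div_pi.const_mul (Module.finrank ℚ K : ℝ))
  rw [mul_zero, add_zero] at h3
  refine squeeze_zero (fun N => by positivity) (fun N => ?_) h3
  rw [← mul_div_assoc, ← add_div]
  exact div_le_div_of_nonneg_right (split_sum ψ h.norm_le N) (Nat.cast_nonneg _)

end places

theorem main : Pool.Agent.H500.ME.S_MVHn := by
  intro K _ _ 𝔪 k ν ψ h hτ
  classical
  set 𝔫 : Ideal (𝓞 K) := Ideal.span {(2 : 𝓞 K)} with h𝔫
  have h𝔫0 : 𝔫 ≠ ⊥ := by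
    rw [h𝔫, Ne, Ideal.span_singleton_eq_bot]
    norm_num
  have h' := h.res h𝔫0
  have hmt : 𝔪 * 𝔫 ≠ ⊤ := by
    intro h4
    exact two_ne_top (K := K) (top_le_iff.1 (h4 ▸ Ideal.mul_le_right))
  have hval : ∀ v : HeightOneSpectrum (𝓞 K), IsCoprime v.asIdeal (𝔪 * 𝔫) →
      resH 𝔫 ψ v.asIdeal = ψ v.asIdeal := fun v hv =>
    if_pos (IsCoprime.mul_right_iff.1 hv).2
  have hco := coprime_cofinite (mul_ne_zero h.ne_bot h𝔫0)
  have hex : ∀ τ : ℝ, ∃ 𝔮 : Ideal (𝓞 K), 𝔮 ≠ ⊥ ∧ IsCoprime 𝔮 (𝔪 * 𝔫) ∧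
      tq τ (resH 𝔫 ψ) 𝔮 ≠ 1 := by
    intro τ
    by_contra hcon
    push Not at hcon
    apply hτ τ
    filter_upwards [hco] with v hv
    have h1 := hcon v.asIdeal v.ne_bot hv
    rw [tq_apply, hval v hv] at h1
    have h2 : ((absNorm v.asIdeal : ℕ) : ℂ) ≠ 0 := by
      exact_mod_cast (absNorm_pos' v.ne_bot).ne'
    rw [Complex.cpow_neg] at h1
    have h3 : ((absNorm v.asIdeal : ℕ) : ℂ) ^ ((τ : ℂ) * I) ≠ 0 := by
      rw [Complex.cpow_def_of_ne_zero h2]
      exact Complex.exp_ne_zero _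
    exact (mul_inv_eq_one₀ h3).1 h1
  have h1 := core (resH 𝔫 ψ) h' hmt hex
  -- finitely many changes
  have hfin : {v : HeightOneSpectrum (𝓞 K) | ¬ IsCoprime v.asIdeal (𝔪 * 𝔫)}.Finite := hco
  set B := hfin.toFinset with hB
  have h2 := h1.add (Pool.Agent.W352.ChAbs.const_div_pi (2 * (B.card : ℝ)))
  rw [add_zero] at h2
  unfold Pool.Agent.H500.ME.MVn
  refine squeeze_zero_norm (fun N => ?_) h2
  rw [norm_div, ← add_div, Complex.norm_natCast]
  refine div_le_div_of_nonneg_right ?_ (Nat.cast_nonneg _)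
  have e1 : ∑ v ∈ Pool.Agent.H500.ME.pl K N, ψ v.asIdeal =
      ∑ v ∈ Pool.Agent.H500.ME.pl K N, resH 𝔫 ψ v.asIdeal +
      ∑ v ∈ Pool.Agent.H500.ME.pl K N, (ψ v.asIdeal - resH 𝔫 ψ v.asIdeal) := by
    rw [← Finset.sum_add_distrib]
    exact Finset.sum_congr rfl fun v _ => by ring
  rw [e1]
  refine (norm_add_le _ _).trans (add_le_add_right ?_ _)
  have e2 : ∑ v ∈ Pool.Agent.H500.ME.pl K N, (ψ v.asIdeal - resH 𝔫 ψ v.asIdeal) =
      ∑ v ∈ (Pool.Agent.H500.ME.pl K N).filter (fun v => v ∈ B),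
        (ψ v.asIdeal - resH 𝔫 ψ v.asIdeal) := by
    symm
    refine Finset.sum_subset (Finset.filter_subset _ _) fun v hv hv' => ?_
    have h3 : v ∉ B := fun h3 => hv' (Finset.mem_filter.2 ⟨hv, h3⟩)
    rw [hB, Set.Finite.mem_toFinset] at h3
    have h4 : IsCoprime v.asIdeal (𝔪 * 𝔫) := by
      by_contra h4
      exact h3 h4
    rw [hval v h4, sub_self]
  rw [e2]
  refine (norm_sum_le _ _).trans ?_
  calc ∑ v ∈ (Pool.Agent.H500.ME.pl K N).filter (fun v => v ∈ B),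
        ‖ψ v.asIdeal - resH 𝔫 ψ v.asIdeal‖
      ≤ ∑ v ∈ (Pool.Agent.H500.ME.pl K N).filter (fun v => v ∈ B), (2 : ℝ) := by
        refine Finset.sum_le_sum fun v _ => (norm_sub_le _ _).trans ?_
        have a1 := h.norm_le v.asIdeal
        have a2 := h'.norm_le v.asIdeal
        linarith
    _ = (((Pool.Agent.H500.ME.pl K N).filter (fun v => v ∈ B)).card : ℝ) * 2 := by
        rw [Finset.sum_const, nsmul_eq_mul]
    _ ≤ (B.card : ℝ) * 2 := by
        refine mul_le_mul_of_nonneg_right ?_ (by norm_num)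
        exact_mod_cast Finset.card_le_card fun v hv => (Finset.mem_filter.1 hv).2
    _ = 2 * (B.card : ℝ) := by ring

end Pool.Agent.H199.ME.MVHn
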